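import Pool.Agent.Q161.SH.Loc
import Pool.Agent.Q16.SX.TRA

/-! # Project SH: sections of the fundamental group -/

set_option autoImplicit false

namespace Pool.Agent.Q161.SH

open Polynomial IntermediateField
open Pool.Agent.W620.SC
open Pool.Agent.W623.SecC
open Pool.Agent.Q161.SX

universe u v w

section gen

variable {k : Type u} {F : Type v} {Ω : Type w} [Field k] [Field F] [Field Ω] [Algebra k F]
  [Algebra F Ω] [Algebra k Ω] [IsScalarTower k F Ω]

theorem mk_any [CharZero k] [IsAlgClosed Ω] [Algebra.IsAlgebraic F Ω]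
    (U : Set (ValuationSubring F)) (hU : ∀ O ∈ U, ∀ c : k, algebraMap k F c ∈ O)
    (G : GSection k F Ω U) (Dt : Dat k (algebraicClosure k Ω) (unramified F Ω U))
    (h1 : Dt.s = (toRingAutHom F (unramified F Ω U)).comp G.toHom) (h2 : Dt.ι = constHom hU) :
    Dt.HasRoots ∧ Dt.HasSq := by
  obtain ⟨s, ι, hι, cont, S, V, ϖ, ϖ0, ϖn, sq, tame, φ, φV, φS⟩ := Dt
  simp only at h1 h2
  subst h1 h2
  exact ⟨mk_roots U hU G V S ϖ ϖ0 ϖn sq tame φ φV φS allA7,
    mk_sq U hU G V S ϖ ϖ0 ϖn sq tame φ φV φS⟩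

end gen

attribute [-instance] DivisionRing.toRatAlgebra in
theorem sech0 {J : Type} [Fintype J] (f : ℤ[X]) (g : J → ℤ[X])
    (hsep : ((f * ∏ j, g j).map (Int.castRingHom ℚ)).Separable) (hev : Even f.natDegree)
    (h4 : 4 ≤ f.natDegree) (hg : ∀ j, Even (g j).natDegree) :
    ∃ B : ℕ, B ≠ 0 ∧ ∀ D : ℤ, Squarefree D →
    ∀ (F : Type v) (Ω : Type w) [Field F] [Field Ω] [Algebra ℚ F] [Algebra F Ω] [Algebra ℚ Ω]
      [IsScalarTower ℚ F Ω] [IsAlgClosed Ω] [Algebra.IsAlgebraic F Ω]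
      (U : Set (ValuationSubring F)), (∀ O ∈ U, ∀ c : ℚ, algebraMap ℚ F c ∈ O) →
      ∀ (_ : GSection ℚ F Ω U) (x y : F) (z : J → F), (D : F) * y ^ 2 = aeval x f →
      (∀ j, z j ^ 2 = aeval x (g j)) → Transcendental ℚ x →
      ∃ S : Sec f (algebraicClosure ℚ Ω) (unramified F Ω U), GoodH g S D B := by
  classical
  obtain ⟨B, hB, h⟩ := locH f g hsep hev h4 hg
  refine ⟨B, hB, ?_⟩
  intro D hD F Ω _ _ _ _ _ _ _ _ U hU G x y z hxy hz hx
  have hac : IsAlgClosure ℚ (algebraicClosure ℚ Ω) := inferInstance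
  have hkb : IsAlgClosed (algebraicClosure ℚ Ω) := hac.1
  have hch : CharZero (algebraicClosure ℚ Ω) := algebraRat.charZero _
  have htr := Pool.Agent.W623.SecE.tr_const (k := ℚ) (Ω := Ω) hx
  have hint : ∀ n : ℤ, constHom hU (n : algebraicClosure ℚ Ω) = (n : unramified F Ω U) :=
    fun n => map_intCast _ n
  obtain ⟨P, hP⟩ : ∃ P : ℤ[X], P = f * ∏ j, g j := ⟨_, rfl⟩
  have hsep' := hsep
  rw [← hP] at hsep'
  have hPz0 : P ≠ 0 := by
    rintro rfl
    rw [Polynomial.map_zero] at hsep'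
    exact hsep'.ne_zero rfl
  -- the equation
  set Q := PA (algebraicClosure ℚ Ω) P with hQ
  have hlc0 : (P.leadingCoeff : algebraicClosure ℚ Ω) ≠ 0 :=
    Int.cast_ne_zero.2 (leadingCoeff_ne_zero.2 hPz0)
  have hQ0 : Q ≠ 0 := by
    rw [Ne, ← leadingCoeff_eq_zero, hQ, PA_lc]
    exact hlc0
  have hQsep : Q.Separable := by
    rw [hQ, PA_map]
    exact hsep'.map
  have hnd : Q.roots.Nodup := nodup_roots hQsep
  have hmemr : ∀ θ, θ ∈ Q.roots.toFinset ↔ aeval θ P = 0 := by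
    intro θ
    rw [Multiset.mem_toFinset, mem_roots hQ0, hQ, PA_root]
  have hev' : aeval (algebraMap F Ω x) P = algebraMap (algebraicClosure ℚ Ω) Ω
      (P.leadingCoeff : algebraicClosure ℚ Ω) *
      ∏ i : Pool.Agent.W623.SecE.Rt Q, (algebraMap F Ω x - ((i : algebraicClosure ℚ Ω) : Ω)) := by
    have h1 := Pool.Agent.W623.SecE.RQ_eval₂ Q Q hQ0 dvd_rfl hnd
      (algebraMap (algebraicClosure ℚ Ω) Ω) (algebraMap F Ω x)
    rw [Pool.Agent.W623.SecE.RQ_self, hQ, PA_eval, PA_lc] at h1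
    exact h1
  have hyzP : (D : Ω) * algebraMap F Ω (y * ∏ j, z j) ^ 2 = aeval (algebraMap F Ω x) P := by
    have h1 : (D : F) * (y * ∏ j, z j) ^ 2 = aeval x P := by
      rw [mul_pow, ← mul_assoc, hxy, ← Finset.prod_pow, Finset.prod_congr rfl (fun j _ => hz j),
        hP, map_mul, map_prod]
    rw [aeval_algebraMap_apply, ← h1]
    simp only [map_mul, map_intCast, map_pow]
  have hprod0 : ∏ i : Pool.Agent.W623.SecE.Rt Q,
      (algebraMap F Ω x - ((i : algebraicClosure ℚ Ω) : Ω)) ≠ 0 :=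
    Finset.prod_ne_zero_iff.2 fun i _ h => htr i.1 (sub_eq_zero.1 h).symm
  have hlcΩ : algebraMap (algebraicClosure ℚ Ω) Ω (P.leadingCoeff : algebraicClosure ℚ Ω) ≠ 0 :=
    (_root_.map_ne_zero _).2 hlc0
  have hD0 : (D : algebraicClosure ℚ Ω) ≠ 0 := Int.cast_ne_zero.2 hD.ne_zero
  have hY0 : y * ∏ j, z j ≠ 0 := by
    intro h
    rw [h, map_zero, zero_pow two_ne_zero, mul_zero, hev'] at hyzP
    exact mul_ne_zero hlcΩ hprod0 hyzP.symm
  have hxyΩ : (((D : algebraicClosure ℚ Ω) / (P.leadingCoeff : algebraicClosure ℚ Ω) :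
      algebraicClosure ℚ Ω) : Ω) * algebraMap F Ω (y * ∏ j, z j) ^ 2 =
      ∏ i : Pool.Agent.W623.SecE.Rt Q, (algebraMap F Ω x - ((i : algebraicClosure ℚ Ω) : Ω)) := by
    have h1 : (((D : algebraicClosure ℚ Ω) / (P.leadingCoeff : algebraicClosure ℚ Ω) :
        algebraicClosure ℚ Ω) : Ω) = (D : Ω) / algebraMap (algebraicClosure ℚ Ω) Ω
          (P.leadingCoeff : algebraicClosure ℚ Ω) := by
      have h2 : (((D : algebraicClosure ℚ Ω) / (P.leadingCoeff : algebraicClosure ℚ Ω) :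
        algebraicClosure ℚ Ω) : Ω) = algebraMap (algebraicClosure ℚ Ω) Ω
          ((D : algebraicClosure ℚ Ω) / (P.leadingCoeff : algebraicClosure ℚ Ω)) := rfl
      rw [h2, map_div₀, map_intCast]
    rw [h1, div_mul_eq_mul_div, hyzP, hev', mul_div_cancel_left₀ _ hlcΩ]
  have hsq : ∀ i j : algebraicClosure ℚ Ω, aeval i P = 0 → aeval j P = 0 →
      ∃ α : unramified F Ω U, α ^ 2 = (algebraMap F (unramified F Ω U) x - constHom hU i) /
        (algebraMap F (unramified F Ω U) x - constHom hU j) := by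
    intro i j hi hj
    exact ratio_root U hU (fun i : Pool.Agent.W623.SecE.Rt Q => (i : algebraicClosure ℚ Ω))
      Subtype.val_injective x (y * ∏ j, z j) hY0 _ (div_ne_zero hD0 hlc0) hxyΩ htr
      ⟨i, (hmemr _).2 hi⟩ ⟨j, (hmemr _).2 hj⟩
  let S : Sec f (algebraicClosure ℚ Ω) (unramified F Ω U) :=
    { s := (toRingAutHom F (unramified F Ω U)).comp G.toHom
      ι := constHom hU
      hι := fun σ x => Subtype.ext (G.compat σ x (constHom hU x) rfl)
      cont := Pool.Agent.W623.SecE.sec_cont U G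
      x := algebraMap F (unramified F Ω U) x
      hx := fun σ => (G.toHom σ).commutes x
      htr := fun a h => htr a (congrArg (algebraMap (unramified F Ω U) Ω) h)
      hsq := fun e e' he he' => hsq e e' (by rw [hP, map_mul, he, zero_mul])
        (by rw [hP, map_mul, he', zero_mul]) }
  have haev : ∀ g0 : ℤ[X], aeval S.x g0 = algebraMap F (unramified F Ω U) (aeval x g0) := by
    intro g0
    exact aeval_algebraMap_apply _ x g0
  refine ⟨S, h _ _ S D hD ?_ ?_ (algebraMap F (unramified F Ω U) y)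
    (fun j => algebraMap F (unramified F Ω U) (z j)) ?_ ?_ ?_ ?_⟩
  · exact fun Dt h1 h2 => mk_any U hU G Dt h1 h2
  · intro i j hi hj
    rw [← hP] at hi hj
    exact hsq i j hi hj
  · exact fun σ => (G.toHom σ).commutes y
  · exact fun j σ => (G.toHom σ).commutes (z j)
  · rw [haev, ← hxy, map_mul, map_intCast, map_pow]
  · intro j
    rw [haev, ← hz, map_pow]

end Pool.Agent.Q161.SH
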