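import Pool.Agent.Q161.SX.Stm
import Pool.Agent.Q150.SX.Gam

/-! # Project SH: canonical square roots -/

set_option autoImplicit false

namespace Pool.Agent.Q161.SH

open Polynomial
open Pool.Agent.W623.SecC
open Pool.Agent.Q161.SX (S_GAM)

universe u v w x

variable {k : Type u} {A : Type v} {M : Type w} [Field k] [Field A] [Field M] [Algebra k A]
  {D : Dat k A M} {X : Type x} [Fintype X] [DecidableEq X] (B : D.Br X)
  [CharZero k] [IsAlgClosed A] [Algebra.IsAlgebraic k A]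

theorem can (hGAM : S_GAM.{u, v, w, x}) {q : ℕ} (hD : D.Ok q) (hS : D.HasSq) (r : X)
    (hr : B.π r = r) (hodd : ∀ i, i ≠ r → Odd (B.n i r)) :
    ∃ γ : X → M, (∀ i, γ i ≠ 0) ∧ ∀ i j, i ≠ r → j ≠ r →
      (γ i / γ j) ^ 2 = (B.x - D.ι (B.θ i)) / (B.x - D.ι (B.θ j)) *
        D.ι ((B.θ r - B.θ j) / (B.θ r - B.θ i)) ∧
      D.s D.φ (γ i / γ j) = γ (B.π i) / γ (B.π j) := by
  -- the `γ i`
  have hγ : ∀ i : {i // i ≠ r}, ∃ w ∈ D.RS,
      (B.x - D.ι (B.θ r))⁻¹ - D.ι ((B.θ i - B.θ r)⁻¹) = D.ι D.p * w ^ 2 := by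
    intro i
    refine Dat.Par.exists_odd (j := B.n i r) ?_ (hodd i i.2)
    rw [B.zsub r i i.2]
    have h1 := (Dat.Par.const_unit (D := D) (inv_mem (sub_mem (B.hθS r) (B.hθS i)))
      (B.hθd _ _ (Ne.symm i.2)).inv).mul (B.hn i r)
    rw [zero_add, map_inv₀] at h1
    convert h1 using 1
    have h3 := B.ne r
    have h4 : D.ι (B.θ r - B.θ i) ≠ 0 := (_root_.map_ne_zero _).2 (B.hθd _ _ (Ne.symm i.2)).1
    field_simp
  choose γ hγ1 hγ2 using hγ
  have hπr : ∀ i, i ≠ r ↔ B.π i ≠ r := by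
    intro i
    constructor
    · intro h h1
      apply h
      apply B.π.injective
      rw [h1, hr]
    · rintro h rfl
      exact h hr
  have hinv : ∀ i : {i // i ≠ r}, IsU D.V (B.θ i - B.θ r) := fun i => B.hθd _ _ i.2
  let G : D.Gm {i // i ≠ r} :=
    { e := fun i => (B.θ i - B.θ r)⁻¹
      heS := fun i => inv_mem (sub_mem (B.hθS _) (B.hθS _))
      hed := by
        intro i j hij
        have h3 : (B.θ i - B.θ r)⁻¹ - (B.θ j - B.θ r)⁻¹ =
            (B.θ j - B.θ i) * ((B.θ i - B.θ r)⁻¹ * (B.θ j - B.θ r)⁻¹) := by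
          have h4 := (hinv i).1
          have h5 := (hinv j).1
          field_simp
          ring
        rw [h3]
        exact (B.hθd _ _ (fun h => hij (Subtype.ext h.symm))).mul ((hinv i).inv.mul (hinv j).inv)
      π := B.π.subtypeEquiv hπr
      hπ := by
        intro i
        rw [map_inv₀, map_sub, B.hπ, B.hπ, hr]
        rfl
      z := (B.x - D.ι (B.θ r))⁻¹
      hφz := by
        rw [map_inv₀, map_sub, B.hx, D.hι, B.hπ, hr]
      htr := by
        intro a h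
        refine B.htr (a⁻¹ + B.θ r) ?_
        rw [map_add, map_inv₀, h, inv_inv, sub_add_cancel]
      γ := γ
      hγ := hγ1
      hzγ := hγ2
      hsq := by
        intro i j l hil hjl
        have hrel : ∀ i l : {i // i ≠ r}, γ i ^ 2 - γ l ^ 2 =
            D.ι (((B.θ l - B.θ r)⁻¹ - (B.θ i - B.θ r)⁻¹) / D.p) := by
          intro i l
          rw [map_div₀, eq_div_iff Dat.ιp0, map_sub]
          linear_combination hγ2 l - hγ2 i
        have hne : ∀ i l : {i // i ≠ r}, i ≠ l →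
            ((B.θ l - B.θ r)⁻¹ - (B.θ i - B.θ r)⁻¹) / D.p ≠ 0 := by
          intro i l hil
          refine div_ne_zero ?_ D.p0
          rw [sub_ne_zero]
          intro h
          have h1 := inv_injective h
          have h2 : B.θ l = B.θ i := by linear_combination h1
          exact (B.hθd _ _ (fun h => hil (Subtype.ext h.symm))).1 (sub_eq_zero.2 h2)
        exact hS (γ i) (γ j) (γ l) _ _ (hne i l hil) (hne j l hjl) (hrel i l) (hrel j l) }
  have hY : 3 ≤ Fintype.card {i // i ≠ r} := by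
    have h1 := B.hX4
    rw [Fintype.card_subtype_compl, Fintype.card_subtype_eq]
    omega
  obtain ⟨g, κ, hκ, hg, hgφ⟩ := hGAM k A M D {i // i ≠ r} G q hD hY
  have hG0 : ∀ i : {i // i ≠ r}, γ i ≠ 0 := fun i => G.ne0 i
  have hg0 : ∀ i, g i ≠ 0 := by
    intro i
    rcases hg i with h | h
    · rw [h]
      exact hG0 i
    · rw [h]
      exact neg_ne_zero.2 (hG0 i)
  have hg2 : ∀ i, g i ^ 2 = γ i ^ 2 := by
    intro i
    rcases hg i with h | h
    · rw [h]
    · rw [h]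
      exact neg_sq _
  have hκ0 : κ ≠ 0 := by
    rcases hκ with rfl | rfl
    · exact one_ne_zero
    · exact neg_ne_zero.2 one_ne_zero
  refine ⟨fun i => if h : i ≠ r then g ⟨i, h⟩ else 1, fun i => ?_, fun i j hi hj => ⟨?_, ?_⟩⟩
  · by_cases h : i ≠ r
    · simp only [dif_pos h]
      exact hg0 _
    · simp only [dif_neg h]
      exact one_ne_zero
  · simp only [dif_pos hi, dif_pos hj]
    have h1 : ∀ i (hi : i ≠ r), γ ⟨i, hi⟩ ^ 2 = (B.x - D.ι (B.θ i)) /
        ((B.x - D.ι (B.θ r)) * D.ι (B.θ r - B.θ i) * D.ι D.p) := by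
      intro i hi
      have h2 := hγ2 ⟨i, hi⟩
      rw [B.zsub r i hi] at h2
      have h3 := B.ne r
      have h4 : D.ι (B.θ r - B.θ i) ≠ 0 := (_root_.map_ne_zero _).2 (B.hθd _ _ (Ne.symm hi)).1
      have h5 : D.ι D.p ≠ 0 := Dat.ιp0
      rw [eq_div_iff (mul_ne_zero (mul_ne_zero h3 h4) h5)]
      rw [div_eq_iff (mul_ne_zero h3 h4)] at h2
      linear_combination -h2
    rw [div_pow, hg2, hg2, h1 i hi, h1 j hj, map_div₀]
    have h3 := B.ne r
    have h4 : ∀ i, i ≠ r → D.ι (B.θ r - B.θ i) ≠ 0 := fun i hi =>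
      (_root_.map_ne_zero _).2 (B.hθd _ _ (Ne.symm hi)).1
    have h4i := h4 i hi
    have h4j := h4 j hj
    have h5 : D.ι D.p ≠ 0 := Dat.ιp0
    have h6 := B.ne i
    have h7 := B.ne j
    field_simp
  · have hi' := (hπr i).1 hi
    have hj' := (hπr j).1 hj
    simp only [dif_pos hi, dif_pos hj, dif_pos hi', dif_pos hj']
    rw [map_div₀, hgφ, hgφ]
    have e1 : G.π ⟨i, hi⟩ = ⟨B.π i, hi'⟩ := rfl
    have e2 : G.π ⟨j, hj⟩ = ⟨B.π j, hj'⟩ := rfl
    rw [e1, e2, mul_div_mul_left _ _ hκ0]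

end Pool.Agent.Q161.SH
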