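import Pool.Agent.Q161.SX.Def

/-!
# Project SH (helper161): double covers, definitions

`f` and the `g j` are polynomials with integral coefficients; the curves are
`D y² = f(x), z_j² = g_j(x)`.  `GoodH g S D B` are the local properties of the abstract section
attached to a section of the fundamental group of such a curve: those of `Sec.Good`, and if `l` divides
`D`, the values of the `g j` at the zero `r` are squares of elements fixed by Frobenius.
-/

set_option autoImplicit false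

namespace Pool.Agent.Q161.SH

open Polynomial
open Pool.Agent.Q161.SX

universe u v w

section

variable {f : ℤ[X]} {A : Type u} {M : Type v} [Field A] [Algebra ℚ A] [Field M] {J : Type}

/-- the local properties of a section at `l` -/
structure LocH (g : J → ℤ[X]) (S : Sec f A M) (D : ℤ) (l : ℕ) (V : ValuationSubring A)
    (φ : A ≃ₐ[ℚ] A) : Prop where
  even : ¬ (l : ℤ) ∣ D → ∀ i j a, S.Kc i j a → PV V l a 0
  odd : (l : ℤ) ∣ D → ∃ r : Rt f A, ra φ r = r ∧
    (∀ i j a, i ≠ r → j ≠ r → S.Kc i j a → PV V l a 0) ∧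
    (∀ i a, i ≠ r → S.Kc i r a → PV V l a 1) ∧
    (∃ γ : Rt f A → M, (∀ i, γ i ≠ 0) ∧ ∀ i j, i ≠ r → j ≠ r →
      (γ i / γ j) ^ 2 = (S.x - S.ι i.1) / (S.x - S.ι j.1) * S.ι ((r.1 - j.1) / (r.1 - i.1)) ∧
      S.s φ (γ i / γ j) = γ (ra φ i) / γ (ra φ j)) ∧
    ∀ j, ∃ ρ : A, φ ρ = ρ ∧ ρ ^ 2 = aeval r.1 (g j)

/-- the local properties at all primes not dividing `B` -/
def GoodH (g : J → ℤ[X]) (S : Sec f A M) (D : ℤ) (B : ℕ) : Prop :=
  ∀ l : ℕ, l.Prime → ¬ l ∣ B → ∀ V : ValuationSubring A, (l : A) ∈ V.nonunits →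
    ∀ φ : A ≃ₐ[ℚ] A, Frb V l φ → LocH g S D l V φ

theorem LocH.loc {g : J → ℤ[X]} {S : Sec f A M} {D : ℤ} {l : ℕ} {V : ValuationSubring A}
    {φ : A ≃ₐ[ℚ] A} (h : LocH g S D l V φ) : S.Loc D l V φ :=
  ⟨h.even, fun hl => by
    obtain ⟨r, h1, h2, h3, h4, -⟩ := h.odd hl
    exact ⟨r, h1, h2, h3, h4⟩⟩

theorem GoodH.good {g : J → ℤ[X]} {S : Sec f A M} {D : ℤ} {B : ℕ} (h : GoodH g S D B) :
    S.Good D B := fun l hl hlB V hV φ hφ => (h l hl hlB V hV φ hφ).loc

end

end Pool.Agent.Q161.SH
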