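import Pool.Agent.Q161.SH.Def
import Pool.Agent.Q161.SH.Can
import Pool.Agent.Q161.SX.Pre
import Pool.Agent.W623.SecE.Loc
import Pool.Agent.W240.S3.ZLoc
import Pool.Agent.Q162.SX.DST

/-! # Project SH: the local theorem for abstract sections -/

set_option autoImplicit false

namespace Pool.Agent.Q161.SH

open Polynomial
open Pool.Agent.W623.SecC
open Pool.Agent.Q161.SX

universe u v w

section zl

variable {A : Type u} [Field A] [Algebra ℚ A]

theorem cast_rat (q : ℚ) : algebraMap ℚ A q = (q.num : A) / (q.den : A) := by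
  have hch : CharZero A := algebraRat.charZero A
  conv_lhs => rw [← q.num_div_den]
  rw [map_div₀, map_intCast, map_natCast]

theorem int_isU {V : ValuationSubring A} {l : ℕ} (hl : l.Prime) (hV : (l : A) ∈ V.nonunits) {n : ℤ}
    (hn : ¬ (l : ℤ) ∣ n) : IsU V (n : A) := by
  have h := Pool.Agent.Q162.SX.isU_of_unit (Pool.Agent.Q162.SX.int_unit hl hV hn)
  simpa using h

variable (A0 : Type) [CommRing A0] [IsDomain A0] [IsDiscreteValuationRing A0] [Algebra A0 ℚ]

/-- elements of the localisation lie in `V` -/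
theorem zl_mem [IsFractionRing A0 ℚ] {V : ValuationSubring A} {l : ℕ} (hl : l.Prime)
    (hV : (l : A) ∈ V.nonunits)
    (hmax : ∀ n : ℤ, (n : A0) ∈ IsLocalRing.maximalIdeal A0 ↔ (l : ℤ) ∣ n) (a : A0) :
    algebraMap ℚ A (algebraMap A0 ℚ a) ∈ V := by
  set q : ℚ := algebraMap A0 ℚ a with hq
  have h1 : a * ((q.den : ℤ) : A0) = ((q.num : ℤ) : A0) := by
    apply IsFractionRing.injective A0 ℚ
    rw [map_mul, map_intCast, map_intCast, ← hq, Int.cast_natCast, Rat.mul_den_eq_num]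
  have hden : ¬ (l : ℤ) ∣ (q.den : ℤ) := by
    intro h
    have h2 := (hmax _).2 h
    have h3 : ((q.num : ℤ) : A0) ∈ IsLocalRing.maximalIdeal A0 := by
      rw [← h1]
      exact Ideal.mul_mem_left _ _ h2
    have h4 := (hmax _).1 h3
    have h5 := q.reduced
    have h6 : l ∣ q.num.natAbs := Int.natCast_dvd.1 h4
    have h7 : l ∣ q.den := by exact_mod_cast h
    exact hl.one_lt.ne' (Nat.dvd_one.1 (h5 ▸ Nat.dvd_gcd h6 h7))
  have hu := int_isU hl hV hden
  rw [cast_rat, div_eq_mul_inv]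
  refine mul_mem (intCast_mem V _) ?_
  have h8 := hu.2.2
  rwa [Int.cast_natCast] at h8

end zl

section br

variable {A : Type u} [Field A]

/-- the polynomial over `A` -/
noncomputable def PA (A : Type u) [Field A] (P : ℤ[X]) : A[X] := P.map (Int.castRingHom A)

theorem PA_map [Algebra ℚ A] (P : ℤ[X]) : PA A P = (P.map (Int.castRingHom ℚ)).map (algebraMap ℚ A) := by
  rw [Polynomial.map_map, PA]
  congr 1
  exact RingHom.ext_int _ _

theorem PA_eval {R : Type v} [CommRing R] (ι : A →+* R) (P : ℤ[X]) (z : R) :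
    (PA A P).eval₂ ι z = aeval z P := by
  rw [PA, eval₂_map, aeval_def]
  congr 1
  exact RingHom.ext_int _ _

theorem PA_root [CharZero A] (P : ℤ[X]) (z : A) : (PA A P).IsRoot z ↔ aeval z P = 0 := by
  rw [IsRoot.def, ← eval₂_id, PA_eval]

theorem PA_deg [CharZero A] (P : ℤ[X]) : (PA A P).natDegree = P.natDegree :=
  natDegree_map_eq_of_injective (Int.castRingHom A).injective_int P

theorem PA_lc [CharZero A] (P : ℤ[X]) : (PA A P).leadingCoeff = (P.leadingCoeff : A) := by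
  rw [PA, leadingCoeff_map_of_injective (Int.castRingHom A).injective_int]
  rfl

end br

theorem dstu {P P1 P2 : ℤ[X]} {N : ℤ} (hN : P1 * P + P2 * derivative P = C N) {A : Type u} [Field A]
    [Algebra ℚ A] {l : ℕ} (hl : l.Prime) {V : ValuationSubring A} (hV : (l : A) ∈ V.nonunits)
    (h1 : ¬ (l : ℤ) ∣ P.leadingCoeff) (h2 : ¬ (l : ℤ) ∣ N) :
    IsU V (P.leadingCoeff : A) ∧ (∀ i : A, aeval i P = 0 → i ∈ V) ∧
    ∀ i j : A, aeval i P = 0 → aeval j P = 0 → i ≠ j → IsU V (i - j) := by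
  have hIa := int_isU hl hV h1
  have huN := Pool.Agent.Q162.SX.int_unit hl hV h2
  have hmem : ∀ i : A, aeval i P = 0 → i ∈ V := by
    intro i hi
    have h2 : IsIntegral ℤ (P.leadingCoeff • i) := isIntegral_leadingCoeff_smul P i hi
    have h3 := Pool.Agent.Q162.SX.mem_of_int (V := V) h2
    have h4 := V.mul_mem _ _ hIa.2.2 h3
    rw [zsmul_eq_mul, inv_mul_cancel_left₀ hIa.1] at h4
    exact h4
  refine ⟨hIa, hmem, fun i j hi hj hij => ?_⟩
  have h5 := Pool.Agent.Q162.SX.diff_unit hN huN (i := ⟨i, hmem i hi⟩) (j := ⟨j, hmem j hj⟩) hi hj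
    (fun h => hij (Subtype.mk.inj h))
  have h6 := Pool.Agent.Q162.SX.isU_of_unit h5
  simpa using h6

theorem locH {J : Type} [Fintype J] (f : ℤ[X]) (g : J → ℤ[X])
    (hsep : ((f * ∏ j, g j).map (Int.castRingHom ℚ)).Separable) (hev : Even f.natDegree)
    (h4 : 4 ≤ f.natDegree) (hg : ∀ j, Even (g j).natDegree) :
    ∃ B : ℕ, B ≠ 0 ∧ ∀ (A : Type v) (M : Type w) [Field A] [Algebra ℚ A] [IsAlgClosure ℚ A]
      [Field M] (S : Sec f A M) (D : ℤ), Squarefree D →
      (∀ Dt : Dat ℚ A M, Dt.s = S.s → Dt.ι = S.ι → Dt.HasRoots ∧ Dt.HasSq) →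
      (∀ i j : A, aeval i (f * ∏ j, g j) = 0 → aeval j (f * ∏ j, g j) = 0 →
        ∃ α : M, α ^ 2 = (S.x - S.ι i) / (S.x - S.ι j)) →
      ∀ (y : M) (z : J → M), (∀ σ, S.s σ y = y) → (∀ j σ, S.s σ (z j) = z j) →
      (D : M) * y ^ 2 = aeval S.x f → (∀ j, z j ^ 2 = aeval S.x (g j)) → GoodH g S D B := by
  classical
  obtain ⟨P, hP⟩ : ∃ P : ℤ[X], P = f * ∏ j, g j := ⟨_, rfl⟩
  rw [← hP] at hsep
  obtain ⟨N, P1, P2, hN0, hN⟩ := Pool.Agent.Q162.SX.exists_bezout hsep
  have hlc0 : P.leadingCoeff ≠ 0 := by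
    rw [Ne, leadingCoeff_eq_zero]
    rintro rfl
    rw [Polynomial.map_zero] at hsep
    exact hsep.ne_zero rfl
  refine ⟨2 * P.leadingCoeff.natAbs * N.natAbs, mul_ne_zero (mul_ne_zero two_ne_zero
    (Int.natAbs_ne_zero.2 hlc0)) (Int.natAbs_ne_zero.2 hN0), ?_⟩
  intro A M _ _ _ _ S D hD hDt hsq y z hy hz hyf hzg
  intro l hl hlB V hV φ hφ
  have hl2 : ¬ (l : ℤ) ∣ 2 := by
    intro h
    have h1 : l ∣ 2 := by exact_mod_cast h
    exact hlB ((h1.mul_right _).mul_right _)
  have hlcl : ¬ (l : ℤ) ∣ P.leadingCoeff := fun h =>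
    hlB (((Int.natCast_dvd.1 h).mul_left 2).mul_right _)
  have hlN : ¬ (l : ℤ) ∣ N := fun h => hlB ((Int.natCast_dvd.1 h).mul_left _)
  have hcl : IsAlgClosed A := IsAlgClosure.isAlgClosed ℚ
  have halg : Algebra.IsAlgebraic ℚ A := IsAlgClosure.isAlgebraic
  have hch : CharZero A := algebraRat.charZero A
  have hchM : CharZero M := charZero_of_injective_ringHom S.ι.injective
  obtain ⟨hlcU, hmemV, hdiff⟩ := dstu hN hl hV hlcl hlN
  -- the localisation
  obtain ⟨A0, i1, i2, i3, i4, hfinr, hfr, hirr, hmax, hres⟩ := Pool.Agent.W240.S3.core l hl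
  let i5 : Algebra A0 A := ((algebraMap ℚ A).comp (algebraMap A0 ℚ)).toAlgebra
  have i6 : IsScalarTower A0 ℚ A := IsScalarTower.of_algebraMap_eq (fun _ => rfl)
  have hVa : ∀ a : A0, algebraMap A0 A a ∈ V := fun a => zl_mem A0 hl hV hmax a
  have hVm : ∀ a ∈ IsLocalRing.maximalIdeal A0, algebraMap A0 A a ∈ V.nonunits := by
    intro a ha
    rw [hirr.maximalIdeal_eq, Ideal.mem_span_singleton] at ha
    obtain ⟨b, rfl⟩ := ha
    rw [map_mul, map_natCast, mul_comm]
    exact nonunit_mul (hVa b) hV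
  have hunit : ∀ n : ℤ, ¬ (l : ℤ) ∣ n → IsUnit (n : A0) := by
    intro n hn
    by_contra h
    exact hn ((hmax n).1 ((IsLocalRing.mem_maximalIdeal _).2 h))
  have hlcA : IsUnit (P.map (Int.castRingHom A0)).leadingCoeff := by
    have h1 := hunit _ hlcl
    rw [leadingCoeff_map_of_leadingCoeff_ne_zero _ (by
      change ((P.leadingCoeff : ℤ) : A0) ≠ 0
      exact h1.ne_zero)]
    exact h1
  have hsepA : ((P.map (Int.castRingHom A0)).map (IsLocalRing.residue A0)).Separable := by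
    have h1 : IsLocalRing.residue A0 (N : A0) ≠ 0 := by
      rw [Ne, IsLocalRing.residue_eq_zero_iff, hmax]
      exact hlN
    have h2 := congrArg (Polynomial.map ((IsLocalRing.residue A0).comp (Int.castRingHom A0))) hN
    rw [Polynomial.map_add, Polynomial.map_mul, Polynomial.map_mul, Polynomial.map_C,
      ← derivative_map] at h2
    have h3 : ((IsLocalRing.residue A0).comp (Int.castRingHom A0)) N =
        IsLocalRing.residue A0 (N : A0) := rfl
    rw [h3] at h2
    rw [Polynomial.map_map]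
    refine ⟨C (IsLocalRing.residue A0 (N : A0))⁻¹ *
      P1.map ((IsLocalRing.residue A0).comp (Int.castRingHom A0)),
      C (IsLocalRing.residue A0 (N : A0))⁻¹ *
      P2.map ((IsLocalRing.residue A0).comp (Int.castRingHom A0)), ?_⟩
    rw [mul_assoc, mul_assoc, ← mul_add, h2, ← C_mul, inv_mul_cancel₀ h1, C_1]
  have haeA : ∀ θ : A, aeval θ (P.map (Int.castRingHom A0)) = aeval θ P := by
    intro θ
    rw [aeval_def, eval₂_map, aeval_def]
    congr 1
    exact RingHom.ext_int _ _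
  -- the splitting field
  set K := IntermediateField.adjoin ℚ {θ : A | aeval θ (P.map (Int.castRingHom A0)) = 0} with hK
  have hKtame : ∀ c ∈ K, c ≠ 0 → ∃ j : ℤ, IsU V (c / (l : A) ^ j) := by
    intro c hc hc0
    obtain ⟨j, hj⟩ := Pool.Agent.W308.SecC.partB2 A0 ℚ A V hVa hVm (l : A0) hirr
      (P.map (Int.castRingHom A0)) hlcA hsepA c hc hc0
    rw [map_natCast] at hj
    exact ⟨j, hj⟩
  have hKφ : ∀ x, φ x ∈ K ↔ x ∈ K := by
    have h1 : K.map (φ : A →ₐ[ℚ] A) = K := by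
      rw [hK, IntermediateField.adjoin_map]
      congr 1
      ext θ
      constructor
      · rintro ⟨θ', h1, rfl⟩
        change aeval (φ θ') (P.map (Int.castRingHom A0)) = 0
        change aeval θ' (P.map (Int.castRingHom A0)) = 0 at h1
        rw [haeA] at h1 ⊢
        rw [aeval_aut, h1, map_zero]
      · intro h1
        refine ⟨φ.symm θ, ?_, φ.apply_symm_apply θ⟩
        change aeval (φ.symm θ) (P.map (Int.castRingHom A0)) = 0
        change aeval θ (P.map (Int.castRingHom A0)) = 0 at h1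
        rw [haeA] at h1 ⊢
        rw [aeval_aut, h1, map_zero]
    intro x
    constructor
    · intro h3
      rw [← h1] at h3
      obtain ⟨z', h5, h6⟩ := h3
      have h7 : z' = x := φ.injective h6
      rw [← h7]
      exact h5
    · intro h3
      rw [← h1]
      exact ⟨x, h3, rfl⟩
  have h2V : (2 : A)⁻¹ ∈ V := by
    have h1 := (int_isU hl hV hl2).2.2
    rwa [Int.cast_ofNat] at h1
  have hl0 : (l : ℚ) ≠ 0 := Nat.cast_ne_zero.2 hl.ne_zero
  have hlmap : algebraMap ℚ A (l : ℚ) = (l : A) := map_natCast _ _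
  obtain ⟨S0, hKS, hφS, hSsq, hStame⟩ := Pool.Agent.W933.SecC.partB3 ℚ A V h2V (l : ℚ) hl0
    (by rw [hlmap]; exact hV) K (by
      intro c hc hc0
      rw [hlmap]
      exact hKtame c hc hc0) φ hφ.1 hKφ
  obtain ⟨Dt, hDts, hDtι, hDtS, hDtV, hDtϖ, hDtφ⟩ : ∃ Dt : Dat ℚ A M, Dt.s = S.s ∧ Dt.ι = S.ι ∧
      Dt.S = S0 ∧ Dt.V = V ∧ Dt.ϖ = (l : ℚ) ∧ Dt.φ = φ :=
    ⟨{ s := S.s
       ι := S.ι
       hι := S.hι
       cont := S.cont
       S := S0
       V := V
       ϖ := (l : ℚ)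
       ϖ0 := hl0
       ϖn := by rw [hlmap]; exact hV
       sq := hSsq
       tame := hStame
       φ := φ
       φV := hφ.1
       φS := hφS }, rfl, rfl, rfl, rfl, rfl, rfl⟩
  have hDtp : Dt.p = (l : A) := by
    change algebraMap ℚ A Dt.ϖ = _
    rw [hDtϖ, hlmap]
  obtain ⟨hroots, hSq⟩ := hDt Dt hDts hDtι
  have hOk : Dt.Ok l := ⟨allA8, by rw [hDtV]; exact h2V, hl.two_le, by
    rw [hDtV, hDtφ]; exact hφ.2, hroots⟩
  -- the zeros
  set Q := PA A P with hQ
  have hQ0 : Q ≠ 0 := by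
    rw [Ne, ← leadingCoeff_eq_zero, hQ, PA_lc]
    exact hlcU.1
  have hQsep : Q.Separable := by
    rw [hQ, PA_map]
    exact hsep.map
  have hnd : Q.roots.Nodup := nodup_roots hQsep
  have hmemr : ∀ θ, θ ∈ Q.roots.toFinset ↔ aeval θ P = 0 := by
    intro θ
    rw [Multiset.mem_toFinset, mem_roots hQ0, hQ, PA_root]
  have hxne : ∀ a : A, S.x - S.ι a ≠ 0 := fun a h => S.htr a (sub_eq_zero.1 h).symm
  have hRp : ∀ g0 : ℤ[X], PA A g0 ∣ Q → aeval S.x g0 = S.ι (g0.leadingCoeff : A) *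
      ∏ i ∈ Pool.Agent.W623.SecE.RQ Q (PA A g0), (S.x - S.ι i.1) := by
    intro g0 hdvd
    have h1 := Pool.Agent.W623.SecE.RQ_eval₂ Q (PA A g0) hQ0 hdvd hnd S.ι S.x
    rw [PA_eval, PA_lc] at h1
    exact h1
  have hRa : ∀ g0 : ℤ[X], PA A g0 ∣ Q → ∀ a : A, aeval a g0 = (g0.leadingCoeff : A) *
      ∏ i ∈ Pool.Agent.W623.SecE.RQ Q (PA A g0), (a - i.1) := by
    intro g0 hdvd a
    have h1 := Pool.Agent.W623.SecE.RQ_eval₂ Q (PA A g0) hQ0 hdvd hnd (RingHom.id A) a
    rw [PA_eval, PA_lc] at h1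
    exact h1
  have hfP : f ∣ P := ⟨_, hP⟩
  have hgP : ∀ j, g j ∣ P := fun j => by
    rw [hP]
    exact (Finset.dvd_prod_of_mem g (Finset.mem_univ j)).mul_left f
  have hfgP : ∀ j, f * g j ∣ P := fun j => by
    rw [hP]
    exact mul_dvd_mul_left f (Finset.dvd_prod_of_mem g (Finset.mem_univ j))
  have hdvdQ : ∀ g0 : ℤ[X], g0 ∣ P → PA A g0 ∣ Q := fun g0 h => Polynomial.map_dvd _ h
  have hP0 : P ≠ 0 := fun h => hlc0 (leadingCoeff_eq_zero.2 h)
  have hf0 : f ≠ 0 := ne_zero_of_dvd_ne_zero hP0 hfP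
  have hg0 : ∀ j, g j ≠ 0 := fun j => ne_zero_of_dvd_ne_zero hP0 (hgP j)
  have hdegP : P.natDegree = f.natDegree + ∑ j, (g j).natDegree := by
    rw [hP, natDegree_mul hf0 (Finset.prod_ne_zero_iff.2 fun j _ => hg0 j),
      natDegree_prod _ _ fun j _ => hg0 j]
  have hevP : Even P.natDegree := by
    rw [hdegP]
    exact hev.add (Finset.even_sum _ fun j _ => hg j)
  have h4P : 4 ≤ P.natDegree := by omega
  have hcardX : Fintype.card (Pool.Agent.W623.SecE.Rt Q) = P.natDegree := by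
    rw [Pool.Agent.W623.SecE.Rt_card Q hQ0 hnd, hQ, PA_deg]
  have hφroot : ∀ θ, θ ∈ Q.roots.toFinset ↔ φ θ ∈ Q.roots.toFinset := by
    intro θ
    rw [hmemr, hmemr, aeval_aut, map_eq_zero_iff _ φ.injective]
  have hlcdvd : ∀ g0 : ℤ[X], g0 ∣ P → ¬ (l : ℤ) ∣ g0.leadingCoeff := by
    rintro g0 ⟨h0, rfl⟩ h1
    apply hlcl
    rw [leadingCoeff_mul]
    exact h1.mul_right _
  -- the valuation of `D`
  obtain ⟨jc, D', hD'l, hDD', hjc1, hjc0⟩ : ∃ (jc : ℤ) (D' : ℤ), ¬ (l : ℤ) ∣ D' ∧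
      (D : A) = (l : A) ^ jc * D' ∧ ((l : ℤ) ∣ D → jc = 1) ∧ (¬ (l : ℤ) ∣ D → jc = 0) := by
    by_cases h : (l : ℤ) ∣ D
    · obtain ⟨D', rfl⟩ := h
      refine ⟨1, D', ?_, ?_, fun _ => rfl, fun h => absurd (Dvd.intro _ rfl) h⟩
      · rintro ⟨D'', rfl⟩
        have h1 : IsUnit (l : ℤ) := hD _ ⟨D'', by ring⟩
        exact (Nat.prime_iff_prime_int.1 hl).not_unit h1
      · rw [zpow_one, Int.cast_mul, Int.cast_natCast]
    · exact ⟨0, D, h, by rw [zpow_zero, one_mul], fun h' => absurd h' h, fun _ => rfl⟩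
  have hlA0 : (l : A) ≠ 0 := Nat.cast_ne_zero.2 hl.ne_zero
  have hDU : IsU V ((D : A) / (l : A) ^ jc) := by
    rw [hDD', mul_div_cancel_left₀ _ (zpow_ne_zero _ hlA0)]
    exact int_isU hl hV hD'l
  have hrpn : aeval S.x P ≠ 0 := by
    rw [hRp P (hdvdQ P dvd_rfl)]
    refine mul_ne_zero ((_root_.map_ne_zero S.ι).2 hlcU.1) (Finset.prod_ne_zero_iff.2 fun i _ => ?_)
    exact hxne _
  have hyzP : (D : M) * (y * ∏ j, z j) ^ 2 = aeval S.x P := by
    rw [mul_pow, ← mul_assoc, hyf, ← Finset.prod_pow, Finset.prod_congr rfl (fun j _ => hzg j), hP,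
      map_mul, map_prod]
  have hKmem : ∀ i : Pool.Agent.W623.SecE.Rt Q, i.1 ∈ K := by
    intro i
    apply IntermediateField.subset_adjoin
    change aeval i.1 (P.map (Int.castRingHom A0)) = 0
    rw [haeA]
    exact (hmemr _).1 i.2
  have hsplK : spl f A ≤ K := by
    unfold spl
    rw [IntermediateField.adjoin_le_iff]
    intro e he
    apply IntermediateField.subset_adjoin
    change aeval e (P.map (Int.castRingHom A0)) = 0
    rw [haeA, hP, map_mul]
    have he' : aeval e f = 0 := he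
    rw [he', zero_mul]
  obtain ⟨B, hBx, hBθ, hBπ, hBjc⟩ : ∃ B : Dt.Br (Pool.Agent.W623.SecE.Rt Q), B.x = S.x ∧
      (∀ i, B.θ i = i.1) ∧ (∀ i, (B.π i).1 = φ i.1) ∧ B.jc = jc :=
    ⟨{ hX := by rw [hcardX]; exact hevP
       hX4 := by rw [hcardX]; exact h4P
       θ := fun i => i.1
       hθS := fun i => by rw [hDtS]; exact hKS (hKmem i)
       hθd := fun i j hij => by
        rw [hDtV]
        exact hdiff _ _ ((hmemr _).1 i.2) ((hmemr _).1 j.2) (fun h => hij (Subtype.ext h))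
       π := φ.toEquiv.subtypeEquiv hφroot
       hπ := fun i => by rw [hDtφ]; rfl
       x := S.x
       y := y * ∏ j, z j
       hx := fun σ => by rw [hDts]; exact S.hx σ
       hy := fun σ => by
        rw [hDts, map_mul, map_prod, hy, Finset.prod_congr rfl (fun j _ => hz j σ)]
       hy0 := by
        intro h
        rw [h, zero_pow two_ne_zero, mul_zero] at hyzP
        exact hrpn hyzP.symm
       c := (D : A) / (P.leadingCoeff : A)
       hcS := by
        rw [hDtS]
        exact div_mem (intCast_mem S0 D) (intCast_mem S0 _)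
       jc := jc
       hc := by
        rw [hDtV, hDtp, div_right_comm]
        exact hDU.div hlcU
       hxy := by
        rw [hDtι]
        have h1 := hRp P (hdvdQ P dvd_rfl)
        have h2 : Pool.Agent.W623.SecE.RQ Q (PA A P) = Finset.univ :=
          Pool.Agent.W623.SecE.RQ_self Q
        rw [h2] at h1
        have h3 : S.ι (P.leadingCoeff : A) ≠ 0 := (_root_.map_ne_zero S.ι).2 hlcU.1
        rw [map_div₀, map_intCast, div_mul_eq_mul_div, hyzP, h1, mul_div_cancel_left₀ _ h3]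
       htr := fun a => by rw [hDtι]; exact S.htr a
       hsq := fun i j => by
        rw [hDtι]
        exact hsq i.1 j.1 (by rw [← hP]; exact (hmemr _).1 i.2)
          (by rw [← hP]; exact (hmemr _).1 j.2) }, rfl, fun _ => rfl, fun _ => rfl, rfl⟩
  -- the zeros of `f` among those of `P`
  have hrtQ : ∀ i : Rt f A, i.1 ∈ Q.roots.toFinset := by
    intro i
    rw [hmemr, hP, map_mul, i.2, zero_mul]
  obtain ⟨incl, hincl⟩ : ∃ incl : Rt f A → Pool.Agent.W623.SecE.Rt Q, ∀ i, (incl i).1 = i.1 :=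
    ⟨fun i => ⟨i.1, hrtQ i⟩, fun _ => rfl⟩
  have hinclπ : ∀ i, B.π (incl i) = incl (ra φ i) := by
    intro i
    apply Subtype.ext
    rw [hBπ, hincl, hincl]
    rfl
  have hinj : ∀ i j, incl i = incl j → i = j := by
    intro i j h
    apply Subtype.ext
    rw [← hincl i, ← hincl j, h]
  -- parities of the Kummer classes
  have hpar : ∀ (i j : Rt f A) (a : A), S.Kc i j a → PV V l a (B.n (incl i) (incl j)) := by
    rintro i j a ⟨h1, h2, β, h3, h5, h6⟩
    have haS : a ∈ S0 := hKS (hsplK h1)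
    obtain ⟨j', hj'⟩ := hStame a haS h2
    rw [hlmap] at hj'
    have hβRS : β ∈ Dt.RS := by
      intro σ hσ
      rw [hDtS] at hσ
      rw [hDts]
      refine h5 σ ?_
      rw [IntermediateField.mem_fixingSubgroup_iff] at hσ ⊢
      exact fun x hx => hσ x (hKS (hsplK hx))
    have hp1 : Dt.Par (Dt.ι a) j' := Dat.Par.const (by rw [hDtS]; exact haS)
      (by rw [hDtV, hDtp]; exact hj')
    have hp2 := hp1.mul (Dat.Par.sq hβRS h3)
    have h7 : Dt.ι a * β ^ 2 = (B.x - Dt.ι (B.θ (incl i))) / (B.x - Dt.ι (B.θ (incl j))) := by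
      rw [hDtι, hBx, hBθ, hBθ, hincl, hincl]
      exact h6
    rw [h7] at hp2
    have h8 := hp2.unique (B.hn (incl i) (incl j))
    have h9 : Even (j' - B.n (incl i) (incl j)) := by
      apply zmod2_even
      rw [add_zero] at h8
      rw [Int.cast_sub, h8, sub_self]
    obtain ⟨m, hm⟩ := h9
    refine ⟨m, ?_⟩
    have h10 : B.n (incl i) (incl j) + 2 * m = j' := by omega
    rw [h10]
    exact hj'
  refine ⟨fun hlD i j a hK => ?_, fun hlD => ?_⟩
  · have h1 := B.even hOk (by rw [hBjc, hjc0 hlD]; exact Even.zero) (incl i) (incl j)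
    exact (hpar i j a hK).congr (by rw [sub_zero]; exact h1)
  · have hjc : jc = 1 := hjc1 hlD
    obtain ⟨r0, hr0π, hodd, heven⟩ := B.odd hOk (by rw [hBjc, hjc]; exact odd_one)
    -- `r0` is a zero of `f`
    have hr0f : aeval r0.1 f = 0 := by
      by_contra hcon
      have hnotin : ∀ i ∈ Pool.Agent.W623.SecE.RQ Q (PA A f), i ≠ r0 := by
        rintro i hi rfl
        rw [Pool.Agent.W623.SecE.mem_RQ, PA_root] at hi
        exact hcon hi
      have hcardf : (Pool.Agent.W623.SecE.RQ Q (PA A f)).card = f.natDegree := by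
        rw [Pool.Agent.W623.SecE.RQ_card Q (PA A f) hQ0 (hdvdQ f hfP) hnd, PA_deg]
      obtain ⟨j0, hj0⟩ := Finset.card_pos.1 (by rw [hcardf]; omega :
        0 < (Pool.Agent.W623.SecE.RQ Q (PA A f)).card)
      have h1 : Even (1 : ℤ) := B.cls_even (Pool.Agent.W623.SecE.RQ Q (PA A f))
        (by rw [hcardf]; exact hev) j0 (fun i hi => heven i j0 (hnotin i hi) (hnotin j0 hj0))
        (f.leadingCoeff : A) (by rw [hDtS]; exact intCast_mem S0 _)
        (by rw [hDtV]; exact int_isU hl hV (hlcdvd f hfP)) (D : A)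
        (by rw [hDtS]; exact intCast_mem S0 _) y
        (fun σ _ => by rw [hDts]; exact hy σ) (by
          rw [hDtι, hBx, map_intCast, hyf, hRp f (hdvdQ f hfP)]
          congr 1
          refine Finset.prod_congr rfl fun i _ => ?_
          rw [hBθ]) 1 (by
          rw [hDtV, hDtp, ← hjc]
          exact hDU)
      exact absurd h1 (by decide)
    obtain ⟨r, hr⟩ : ∃ r : Rt f A, incl r = r0 :=
      ⟨⟨r0.1, hr0f⟩, Subtype.ext (hincl _)⟩
    have hφr : φ r0.1 = r0.1 := by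
      rw [← hBπ, hr0π]
    have hrr : r.1 = r0.1 := by rw [← hr, hincl]
    have hrφ : ra φ r = r := by
      apply Subtype.ext
      rw [ra_val, hrr, hφr]
    have hne : ∀ i : Rt f A, i ≠ r → incl i ≠ r0 := by
      intro i hi h
      rw [← hr] at h
      exact hi (hinj _ _ h)
    obtain ⟨γ, hγ0, hγ⟩ := can B Pool.Agent.Q150.SX.gam hOk hSq r0 hr0π hodd
    refine ⟨r, hrφ, fun i j a hi hj hK => ?_, fun i a hi hK => ?_, ⟨fun i => γ (incl i),
      fun i => hγ0 _, fun i j hi hj => ?_⟩, fun j => ?_⟩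
    · exact (hpar i j a hK).congr (by rw [sub_zero]; exact heven _ _ (hne i hi) (hne j hj))
    · refine (hpar i r a hK).congr ?_
      have h1 := hodd _ (hne i hi)
      rw [← hr] at h1
      exact h1.sub_odd odd_one
    · obtain ⟨h1, h2⟩ := hγ (incl i) (incl j) (hne i hi) (hne j hj)
      rw [hDtι, hBx, hBθ, hBθ, hBθ, hincl, hincl] at h1
      rw [hDts, hDtφ, hinclπ, hinclπ] at h2
      rw [hrr]
      exact ⟨h1, h2⟩
    · have hcop : IsCoprime (PA A f) (PA A (g j)) := by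
        have h1 : PA A f * PA A (g j) ∣ Q := by
          have h2 := hdvdQ _ (hfgP j)
          rw [PA, Polynomial.map_mul] at h2
          exact h2
        exact (hQsep.of_dvd h1).isCoprime
      have hr0R : r0 ∉ Pool.Agent.W623.SecE.RQ Q (PA A (g j)) := by
        intro h
        rw [Pool.Agent.W623.SecE.mem_RQ] at h
        have hf' : (PA A f).IsRoot r0.1 := (PA_root f _).2 hr0f
        obtain ⟨s, t, hst⟩ := hcop
        have h5 := congrArg (Polynomial.eval r0.1) hst
        rw [eval_add, eval_mul, eval_mul, hf', h, mul_zero, mul_zero, add_zero, eval_one] at h5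
        exact zero_ne_one h5
      obtain ⟨ρ, hρφ, hρ⟩ := B.cls_symbol hOk hSq r0 hr0π hodd
        (Pool.Agent.W623.SecE.RQ Q (PA A (g j))) hr0R (fun i => by
          rw [Pool.Agent.W623.SecE.mem_RQ, Pool.Agent.W623.SecE.mem_RQ, PA_root, PA_root, hBπ,
            aeval_aut, map_eq_zero_iff _ φ.injective])
        (by
          rw [Pool.Agent.W623.SecE.RQ_card Q (PA A (g j)) hQ0 (hdvdQ _ (hgP j)) hnd, PA_deg]
          exact hg j) ((g j).leadingCoeff : A)
        (by rw [hDtV]; exact int_isU hl hV (hlcdvd _ (hgP j)))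
        (by rw [map_intCast]) 1 (z j) (by rw [hDts]; exact hz j _) (by
          rw [hDtι, hBx, map_one, one_mul, hzg, hRp _ (hdvdQ _ (hgP j))]
          congr 1
          refine Finset.prod_congr rfl fun i _ => ?_
          rw [hBθ]) 0
      refine ⟨ρ, by rw [← hDtφ]; exact hρφ, ?_⟩
      rw [hρ, mul_zero, zpow_zero, div_one, one_mul, hrr, hRa _ (hdvdQ _ (hgP j))]
      congr 1
      refine Finset.prod_congr rfl fun i _ => ?_
      rw [hBθ, hBθ]

end Pool.Agent.Q161.SH
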