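import Pool.Agent.Q161.SH.Sec
import Pool.Agent.Q161.SX.Top

/-! # The local theorem of project SX -/

set_option autoImplicit false

namespace Pool.Agent.Q161.SH

open Polynomial
open Pool.Agent.W620.SC
open Pool.Agent.Q161.SX

universe u v w

attribute [-instance] DivisionRing.toRatAlgebra in
theorem sec1 (f : ℤ[X]) (hsep : (f.map (Int.castRingHom ℚ)).Separable) (hev : Even f.natDegree)
    (h4 : 4 ≤ f.natDegree) : ∃ B : ℕ, B ≠ 0 ∧ ∀ D : ℤ, Squarefree D →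
    ∀ (F : Type v) (Ω : Type w) [Field F] [Field Ω] [Algebra ℚ F] [Algebra F Ω] [Algebra ℚ Ω]
      [IsScalarTower ℚ F Ω] [IsAlgClosed Ω] [Algebra.IsAlgebraic F Ω]
      (U : Set (ValuationSubring F)), (∀ O ∈ U, ∀ c : ℚ, algebraMap ℚ F c ∈ O) →
      ∀ (_ : GSection ℚ F Ω U) (x y : F), (D : F) * y ^ 2 = aeval x f →
      Transcendental ℚ x →
      ∃ S : Sec f (algebraicClosure ℚ Ω) (unramified F Ω U), S.Good D B := by
  obtain ⟨B, hB, h⟩ := sech0 (J := Empty) f (fun e => e.elim) (by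
    rw [Finset.univ_eq_empty, Finset.prod_empty, mul_one]
    exact hsep) hev h4 (fun e => e.elim)
  refine ⟨B, hB, ?_⟩
  intro D hD F Ω _ _ _ _ _ _ _ _ U hU G x y hxy hx
  obtain ⟨S, hS⟩ := h D hD F Ω U hU G x y (fun e => e.elim) hxy (fun e => e.elim) hx
  exact ⟨S, hS.good⟩

theorem secx : S_SEC.{v, w} := by
  intro f hsep hev h4
  obtain ⟨B, hB, h⟩ := sec1 f hsep hev h4
  refine ⟨B, hB, ?_⟩
  intro D hD F Ω _ _ _ _ _ _ _ _ U hU G x y hxy hx
  obtain ⟨S, hS⟩ := h D hD F Ω U hU G x y hxy hx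
  obtain ⟨e⟩ := @rat_equiv (algebraicClosure ℚ Ω) (algebraicClosure ℚ Ω) _ _
    DivisionRing.toRatAlgebra (algebraicClosure ℚ Ω).algebra' (RingEquiv.refl _)
  exact @Pool.Agent.Q16.SX.tra f (algebraicClosure ℚ Ω) (algebraicClosure ℚ Ω) (unramified F Ω U)
    _ _ DivisionRing.toRatAlgebra (algebraicClosure ℚ Ω).algebra' _ e S D B hS

end Pool.Agent.Q161.SH
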